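import Mathlib
import Pool.Agent.MP_f65396_co.h15.Main

/-!
A graph with `n (n + 1) / 2` edges in which every non-isolated vertex is non-adjacent to at most
`n / 10 ^ 4` other non-isolated vertices has an ascending subgraph decomposition into star forests
with at most two stars each.
-/

set_option autoImplicit false

namespace Pool.Agent.Results.MP_f65396_co.Dense

theorem result : ∀ (V : Type) [Fintype V] (G : SimpleGraph V) (n : ℕ),
    G.edgeSet.ncard = n * (n + 1) / 2 →
    (∀ v ∈ G.support, 10 ^ 4 * {w ∈ G.support | w ≠ v ∧ ¬ G.Adj v w}.ncard ≤ n) →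
    ∃ H : Fin n → SimpleGraph V,
      (⨆ i, H i) = G ∧
      Pairwise (fun i j => Disjoint (H i).edgeSet (H j).edgeSet) ∧
      (∀ i : Fin n, (H i).edgeSet.ncard = i.val + 1) ∧
      (∀ i j : Fin n, j.val = i.val + 1 →
        ∃ f : V → V, Function.Injective f ∧
          ∀ u v : V, (H i).Adj u v → (H j).Adj (f u) (f v)) ∧
      (∀ (i : Fin n) (u v : V), (H i).Adj u v →
        (∀ w : V, (H i).Adj u w → w = v) ∨ ∀ w : V, (H i).Adj v w → w = u) ∧
      ∀ i : Fin n, ∃ a b : V, ∀ u v : V, (H i).Adj u v → u = a ∨ u = b ∨ v = a ∨ v = b :=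
  fun V _ G n hE hD => Pool.Agent.MP_f65396_co.h15.main V G n hE hD

end Pool.Agent.Results.MP_f65396_co.Dense
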