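import Mathlib
import Pool.Agent.MP_f65396_co.h32.Main

/-!
A graph with `n (n + 1) / 2` edges whose vertices of degree above `n / 10 ^ 8` are pairwise
non-adjacent has an ascending subgraph decomposition into star forests.
-/

set_option autoImplicit false

namespace Pool.Agent.Results.MP_f65396_co.StarForest

theorem result : ∀ (V : Type) [Fintype V] (G : SimpleGraph V) (n : ℕ),
    G.edgeSet.ncard = n * (n + 1) / 2 →
    (∀ u v : V, G.Adj u v →
      10 ^ 8 * (G.neighborSet u).ncard ≤ n ∨ 10 ^ 8 * (G.neighborSet v).ncard ≤ n) →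
    ∃ H : Fin n → SimpleGraph V,
      (⨆ i, H i) = G ∧
      Pairwise (fun i j => Disjoint (H i).edgeSet (H j).edgeSet) ∧
      (∀ i : Fin n, (H i).edgeSet.ncard = i.val + 1) ∧
      (∀ i j : Fin n, j.val = i.val + 1 →
        ∃ f : V → V, Function.Injective f ∧
          ∀ u v : V, (H i).Adj u v → (H j).Adj (f u) (f v)) ∧
      ∀ (i : Fin n) (u v : V), (H i).Adj u v →
        (∀ w : V, (H i).Adj u w → w = v) ∨ ∀ w : V, (H i).Adj v w → w = u :=
  fun V _ G n hE hdeg => Pool.Agent.MP_f65396_co.h32.main V G n hE hdeg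

end Pool.Agent.Results.MP_f65396_co.StarForest
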